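import Pool.Agent.helper34.FJ3.DefsB

set_option autoImplicit false

/-!
# Energy of discrete geodesics (module B5d)
-/

namespace Pool.Agent.helper28.FJ3

open Pool.Agent.helper34.FJ2 Pool.Agent.helper34.FJ3
open scoped BigOperators

section

variable {M : Type} [MetricSpace M] {r0 : ℝ} {k : ℕ}

/-- the quadrilateral inequality of Reshetnyak -/
theorem resh (h : LCN M r0) {x y u v : M} (hxy : dist x y < r0) (hxu : dist x u < r0)
    (hvy : dist v y < r0) (hvu : dist v u < r0) (hyu : dist y u < r0) :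
    dist x v ^ 2 + dist y u ^ 2 ≤ dist x u ^ 2 + dist y v ^ 2 + 2 * (dist x y * dist u v) := by
  rcases eq_or_ne x y with e | e
  · subst e
    rw [dist_self]
    linarith
  rcases eq_or_ne u v with e' | e'
  · subst e'
    rw [dist_self]
    linarith
  have ha : 0 < dist x y := dist_pos.mpr e
  have hb : 0 < dist u v := dist_pos.mpr e'
  obtain ⟨m, hm⟩ := h.2 y u hyu (dist x y / (dist x y + dist u v)) (by positivity)
    (by rw [div_le_one (by positivity)]; linarith)
  have h1 := hm x hxy hxu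
  have h2 := hm v hvy hvu
  have h3 : dist x v ≤ dist x m + dist v m := by
    rw [dist_comm v m]
    exact dist_triangle _ _ _
  have h0 : 0 ≤ dist x v := dist_nonneg
  rw [dist_comm v y, dist_comm v u] at h2
  generalize dist x y = a at *
  generalize dist u v = b at *
  generalize dist x m = X at *
  generalize dist v m = Y at *
  generalize dist x v = Z at *
  generalize dist x u = P at *
  generalize dist y v = Q at *
  generalize dist y u = R at *
  have e1 : ((a + b) / a) * X ^ 2 ≤ a * b + P ^ 2 - (b / (a + b)) * R ^ 2 := by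
    have := mul_le_mul_of_nonneg_left h1 (show 0 ≤ (a + b) / a by positivity)
    refine this.trans (le_of_eq ?_)
    field_simp
    ring
  have e2 : ((a + b) / b) * Y ^ 2 ≤ a * b + Q ^ 2 - (a / (a + b)) * R ^ 2 := by
    have := mul_le_mul_of_nonneg_left h2 (show 0 ≤ (a + b) / b by positivity)
    refine this.trans (le_of_eq ?_)
    field_simp
    ring
  have e3 : (b / (a + b)) * R ^ 2 + (a / (a + b)) * R ^ 2 = R ^ 2 := by
    field_simp
    ring
  have e4 : (X + Y) ^ 2 ≤ ((a + b) / a) * X ^ 2 + ((a + b) / b) * Y ^ 2 := by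
    have : ((a + b) / a) * X ^ 2 + ((a + b) / b) * Y ^ 2 - (X + Y) ^ 2 =
        (b * X - a * Y) ^ 2 / (a * b) := by
      field_simp
      ring
    have h5 : 0 ≤ (b * X - a * Y) ^ 2 / (a * b) := by positivity
    linarith
  have e5 : Z ^ 2 ≤ (X + Y) ^ 2 := by
    apply pow_le_pow_left₀ h0 h3
  linarith

/-- the inequality at the middle point -/
theorem mid_ineq (h : LCN M r0) {x y m : M} (hxy : dist x y < r0)
    (h1 : dist x m = dist x y / 2) (h2 : dist y m = dist x y / 2) {z : M} (hx : dist z x < r0)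
    (hy : dist z y < r0) :
    dist z m ^ 2 ≤ dist z x ^ 2 / 2 + dist z y ^ 2 / 2 - dist x y ^ 2 / 4 := by
  obtain ⟨n, hn⟩ := h.2 x y hxy (1 / 2) (by norm_num) (by norm_num)
  have e : m = n := by
    have h3 := hn m (by rw [dist_comm, h1]; linarith [h.1]) (by rw [dist_comm, h2]; linarith [h.1])
    rw [dist_comm m x, dist_comm m y, h1, h2] at h3
    have h4 : dist m n ^ 2 ≤ 0 := by
      refine h3.trans (le_of_eq ?_)
      ring
    have h5 : dist m n = 0 := by
      have : 0 ≤ dist m n ^ 2 := by positivity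
      exact pow_eq_zero_iff (two_ne_zero) |>.1 (le_antisymm h4 this)
    exact dist_eq_zero.1 h5
  rw [e]
  have := hn z hx hy
  linarith

/-- existence of the midpoint -/
theorem exists_mid (h : LCN M r0) {x y : M} (hxy : dist x y < r0) :
    ∃ m, dist x m = dist x y / 2 ∧ dist y m = dist x y / 2 := by
  obtain ⟨m, hm⟩ := h.2 x y hxy (1 / 2) (by norm_num) (by norm_num)
  have h1 := hm x (by rw [dist_self]; exact h.1) hxy
  have h2 := hm y (by rw [dist_comm]; exact hxy) (by rw [dist_self]; exact h.1)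
  rw [dist_self] at h1 h2
  rw [dist_comm y x] at h2
  have h3 : dist x m ≤ dist x y / 2 := by
    apply abs_le_of_sq_le_sq' _ (by positivity) |>.2
    linarith
  have h4 : dist y m ≤ dist x y / 2 := by
    apply abs_le_of_sq_le_sq' _ (by positivity) |>.2
    linarith
  have h5 : dist x y ≤ dist x m + dist y m := by
    rw [dist_comm y m]
    exact dist_triangle _ _ _
  exact ⟨m, by linarith, by linarith⟩

theorem mid_unique (h : LCN M r0) {x y m n : M} (hxy : dist x y < r0)
    (h1 : dist x m = dist x y / 2) (h2 : dist y m = dist x y / 2)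
    (h1' : dist x n = dist x y / 2) (h2' : dist y n = dist x y / 2) : m = n := by
  have h3 := mid_ineq h hxy h1' h2' (z := m) (by rw [dist_comm, h1]; linarith [h.1])
    (by rw [dist_comm, h2]; linarith [h.1])
  rw [dist_comm m x, dist_comm m y, h1, h2] at h3
  have h4 : dist m n ^ 2 ≤ 0 := by
    refine h3.trans (le_of_eq ?_)
    ring
  have h5 : dist m n = 0 := by
    have : 0 ≤ dist m n ^ 2 := by positivity
    exact pow_eq_zero_iff (two_ne_zero) |>.1 (le_antisymm h4 this)
  exact dist_eq_zero.1 h5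

theorem KGeo_nonneg {L : ℝ} {q : ℕ → M} (hk : 0 < k) (hq : KGeo k L q) : 0 ≤ L / k := by
  rw [← hq.step 0 hk]
  exact dist_nonneg

/-- `q (i + 1)` is the middle of `q i` and `q (i + 2)` -/
theorem kgeo_mid (h : LCN M r0) {L : ℝ} {q : ℕ → M} (hq : KGeo k L q)
    (hL : L / k ≤ r0 / 16) {i : ℕ} (hi : i + 1 < k) {z : M} (hx : dist z (q i) < r0)
    (hy : dist z (q (i + 2)) < r0) :
    dist z (q (i + 1)) ^ 2 ≤ dist z (q i) ^ 2 / 2 + dist z (q (i + 2)) ^ 2 / 2 - (L / k) ^ 2 := by
  have h2 := hq.two i hi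
  have h1 := hq.step i (by omega)
  have h3 := hq.step (i + 1) (by omega)
  have := mid_ineq h (x := q i) (y := q (i + 2)) (m := q (i + 1)) (by rw [h2]; linarith [h.1])
    (by rw [h1, h2]; ring) (by rw [dist_comm, h3, h2]; ring) hx hy
  rw [h2] at this
  linarith

/-- B5d: discrete geodesics are locally shortest -/
theorem kgeo_length (h : LCN M r0) (hk : 0 < k) {L : ℝ} {q : ℕ → M} (hq : KGeo k L q)
    (hL : L ≤ k * (r0 / 16)) (p : ℕ → M) (h0 : p 0 = q 0) (hpk : p k = q k)
    (hd : ∀ i, i ≤ k → dist (p i) (q i) ≤ r0 / 16)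
    (hs : ∀ i, i < k → dist (p i) (p (i + 1)) < r0) :
    L ≤ ∑ i ∈ Finset.range k, dist (p i) (p (i + 1)) := by
  have hk' : (0 : ℝ) < k := by exact_mod_cast hk
  have hl0 := KGeo_nonneg hk hq
  have hr := h.1
  have hl : L / k ≤ r0 / 16 := by
    rw [div_le_iff₀ hk']
    linarith
  rcases hl0.eq_or_lt with e | e
  · have : L = 0 := by
      have h1 := (div_eq_zero_iff.1 e.symm)
      rcases h1 with h1 | h1
      · exact h1
      · exact absurd h1 hk'.ne'
    rw [this]
    exact Finset.sum_nonneg fun i _ => dist_nonneg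
  set l := L / k with hldef
  -- the middle inequalities
  have key1 : ∀ i, i + 1 < k → 2 * dist (p (i + 1)) (q (i + 1)) ^ 2 + 2 * l ^ 2 ≤
      dist (p (i + 1)) (q i) ^ 2 + dist (p (i + 1)) (q (i + 2)) ^ 2 := by
    intro i hi
    have h1 := hd (i + 1) (by omega)
    have h2 := hq.step i (by omega)
    have h3 := hq.step (i + 1) (by omega)
    have := kgeo_mid h hq hl hi (z := p (i + 1))
      (lt_of_le_of_lt (dist_triangle _ (q (i + 1)) _) (by rw [dist_comm (q (i + 1)), h2]; linarith))
      (lt_of_le_of_lt (dist_triangle _ (q (i + 1)) _) (by rw [h3]; linarith))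
    linarith
  have key2 : ∀ i, i < k → dist (p i) (q (i + 1)) ^ 2 + dist (p (i + 1)) (q i) ^ 2 ≤
      dist (p i) (q i) ^ 2 + dist (p (i + 1)) (q (i + 1)) ^ 2 +
        2 * (dist (p i) (p (i + 1)) * l) := by
    intro i hi
    have h1 := hd i (by omega)
    have h2 := hd (i + 1) (by omega)
    have h3 := hq.step i hi
    have := resh h (x := p i) (y := p (i + 1)) (u := q i) (v := q (i + 1)) (hs i hi)
      (by linarith) (by rw [dist_comm]; linarith) (by rw [dist_comm, h3]; linarith)
      (lt_of_le_of_lt (dist_triangle _ (q (i + 1)) _) (by rw [dist_comm (q (i + 1)), h3]; linarith))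
    rw [h3] at this
    exact this
  obtain ⟨n, rfl⟩ : ∃ n, k = n + 1 := ⟨k - 1, by omega⟩
  have s1 := Finset.sum_le_sum (s := Finset.range n) fun i hi =>
    key1 i (by rw [Finset.mem_range] at hi; omega)
  have s2 := Finset.sum_le_sum (s := Finset.range (n + 1)) fun i hi =>
    key2 i (Finset.mem_range.1 hi)
  simp only [Finset.sum_add_distrib, ← Finset.mul_sum, ← Finset.sum_mul] at s1 s2
  have t1 : ∑ i ∈ Finset.range (n + 1), dist (p i) (q (i + 1)) ^ 2 =
      ∑ i ∈ Finset.range n, dist (p (i + 1)) (q (i + 2)) ^ 2 + l ^ 2 := by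
    rw [Finset.sum_range_succ']
    rw [h0, hq.step 0 hk]
  have t2 : ∑ i ∈ Finset.range (n + 1), dist (p (i + 1)) (q i) ^ 2 =
      ∑ i ∈ Finset.range n, dist (p (i + 1)) (q i) ^ 2 + l ^ 2 := by
    rw [Finset.sum_range_succ, hpk, dist_comm, hq.step n (by omega)]
  have t3 : ∑ i ∈ Finset.range (n + 1), dist (p i) (q i) ^ 2 =
      ∑ i ∈ Finset.range n, dist (p (i + 1)) (q (i + 1)) ^ 2 := by
    rw [Finset.sum_range_succ', h0, dist_self]
    ring
  have t4 : ∑ i ∈ Finset.range (n + 1), dist (p (i + 1)) (q (i + 1)) ^ 2 =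
      ∑ i ∈ Finset.range n, dist (p (i + 1)) (q (i + 1)) ^ 2 := by
    rw [Finset.sum_range_succ, hpk, dist_self]
    ring
  rw [t1, t2, t3, t4] at s2
  simp only [Finset.sum_const, Finset.card_range, nsmul_eq_mul] at s1
  have hLl : L = (n + 1) * l := by
    rw [hldef]
    push_cast
    field_simp
  have : (n + 1) * l ^ 2 ≤ (∑ i ∈ Finset.range (n + 1), dist (p i) (p (i + 1))) * l := by
    linarith
  rw [hLl]
  have h5 : (n + 1) * l * l ≤ (∑ i ∈ Finset.range (n + 1), dist (p i) (p (i + 1))) * l := by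
    linarith
  exact le_of_mul_le_mul_right h5 e

/-- B5d -/
theorem kgeo_energy (h : LCN M r0) (hk : 0 < k) {L : ℝ} {q : ℕ → M} (hq : KGeo k L q)
    (hL : L ≤ k * (r0 / 16)) (p : ℕ → M) (h0 : p 0 = q 0) (hpk : p k = q k)
    (hd : ∀ i, i ≤ k → dist (p i) (q i) ≤ r0 / 16) :
    L ^ 2 ≤ k * ∑ i ∈ Finset.range k, dist (p i) (p (i + 1)) ^ 2 := by
  have hk' : (0 : ℝ) < k := by exact_mod_cast hk
  have hl0 := KGeo_nonneg hk hq
  have hL0 : 0 ≤ L := by
    have := mul_nonneg hl0 hk'.le
    rwa [div_mul_cancel₀ _ hk'.ne'] at this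
  have hl : L / k ≤ r0 / 16 := by
    rw [div_le_iff₀ hk']
    linarith
  have hr := h.1
  have h1 := kgeo_length h hk hq hL p h0 hpk hd (fun i hi => by
    have h1 := hd i (by omega)
    have h2 := hd (i + 1) (by omega)
    have h3 := hq.step i hi
    have h4 := dist_triangle4 (p i) (q i) (q (i + 1)) (p (i + 1))
    rw [dist_comm (q (i + 1))] at h4
    linarith)
  have h2 : L ^ 2 ≤ (∑ i ∈ Finset.range k, dist (p i) (p (i + 1))) ^ 2 :=
    pow_le_pow_left₀ hL0 h1 2
  refine h2.trans ?_
  have := sq_sum_le_card_mul_sum_sq (s := Finset.range k)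
    (f := fun i => dist (p i) (p (i + 1)))
  rwa [Finset.card_range] at this

/-- the distance of midpoints -/
theorem mid_mid (h : LCN M r0) {x x' y y' m n : M} (h1 : dist x x' < r0 / 4)
    (h2 : dist y y' < r0 / 4) (h3 : dist x y < r0 / 4) (h4 : dist x' y' < r0 / 4)
    (hm : dist x m = dist x x' / 2) (hm' : dist x' m = dist x x' / 2)
    (hn : dist y n = dist y y' / 2) (hn' : dist y' n = dist y y' / 2) :
    dist m n ^ 2 ≤ dist x y ^ 2 / 2 + dist x' y' ^ 2 / 2 - (dist x x' - dist y y') ^ 2 / 4 := by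
  have hr := h.1
  have c1 : dist x' x < r0 / 4 := by rwa [dist_comm]
  have c2 : dist y' y < r0 / 4 := by rwa [dist_comm]
  have c3 : dist y x < r0 / 4 := by rwa [dist_comm]
  have c4 : dist y' x' < r0 / 4 := by rwa [dist_comm]
  have d1 : dist x y' < r0 := lt_of_le_of_lt (dist_triangle _ y _) (by linarith)
  have d2 : dist x' y < r0 := lt_of_le_of_lt (dist_triangle _ x _) (by linarith)
  have n0 : (0 : ℝ) ≤ dist x x' := dist_nonneg
  have d3 : dist m y < r0 := by
    refine lt_of_le_of_lt (dist_triangle _ x _) ?_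
    rw [dist_comm m x, hm]
    linarith
  have d4 : dist m y' < r0 := by
    refine lt_of_le_of_lt (dist_triangle _ x' _) ?_
    rw [dist_comm m x', hm']
    linarith
  have a1 := mid_ineq h (x := y) (y := y') (m := n) (by linarith) hn hn' d3 d4
  have a2 := mid_ineq h (x := x) (y := x') (m := m) (by linarith) hm hm' (z := y) (by linarith)
    (by rw [dist_comm]; linarith)
  have a3 := mid_ineq h (x := x) (y := x') (m := m) (by linarith) hm hm' (z := y')
    (by rw [dist_comm]; linarith) (by linarith)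
  have a4 := resh h (x := x) (y := x') (u := y) (v := y') (by linarith) (by linarith)
    (by rw [dist_comm]; linarith) (by linarith) d2
  rw [dist_comm y m, dist_comm y x, dist_comm y x'] at a2
  rw [dist_comm y' m, dist_comm y' x, dist_comm y' x'] at a3
  nlinarith

/-- B5d -/
theorem kgeo_strict (h : LCN M r0) (hk : 0 < k) {L L' L'' : ℝ} {q q' q'' : ℕ → M}
    (hq : KGeo k L q) (hq' : KGeo k L' q') (hq'' : KGeo k L'' q'') (hL : L ≤ k * (r0 / 16))
    (hL' : L' ≤ k * (r0 / 16)) (hL'' : L'' ≤ k * (r0 / 16)) (h0 : q 0 = q' 0)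
    (h0' : q 0 = q'' 0) (hm : dist (q k) (q'' k) = dist (q k) (q' k) / 2)
    (hm' : dist (q' k) (q'' k) = dist (q k) (q' k) / 2)
    (hd : ∀ i, i ≤ k → dist (q i) (q' i) ≤ r0 / 16)
    (hd' : ∀ i, i ≤ k → dist (q i) (q'' i) ≤ r0 / 32) :
    L'' ^ 2 ≤ L ^ 2 / 2 + L' ^ 2 / 2 - dist (q k) (q' k) ^ 2 / 4 := by
  have hk' : (0 : ℝ) < k := by exact_mod_cast hk
  have hr := h.1
  have hl : L / k ≤ r0 / 16 := by
    rw [div_le_iff₀ hk']
    linarith
  have hl' : L' / k ≤ r0 / 16 := by
    rw [div_le_iff₀ hk']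
    linarith
  have ex : ∀ i, ∃ m, i ≤ k → dist (q i) m = dist (q i) (q' i) / 2 ∧
      dist (q' i) m = dist (q i) (q' i) / 2 := by
    intro i
    by_cases hi : i ≤ k
    · obtain ⟨m, hm⟩ := exists_mid h (x := q i) (y := q' i) (by linarith [hd i hi])
      exact ⟨m, fun _ => hm⟩
    · exact ⟨q i, fun hi' => absurd hi' hi⟩
  choose p hp using ex
  have hp0 : p 0 = q'' 0 := by
    have := (hp 0 (by omega)).1
    rw [← h0, dist_self] at this
    rw [← h0']
    have h1 : dist (q 0) (p 0) = 0 := by linarith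
    exact (dist_eq_zero.1 h1).symm
  have hpk : p k = q'' k :=
    mid_unique h (by linarith [hd k (le_refl _)]) (hp k (le_refl _)).1 (hp k (le_refl _)).2 hm hm'
  have hpd : ∀ i, i ≤ k → dist (p i) (q'' i) ≤ r0 / 16 := by
    intro i hi
    have h1 := (hp i hi).1
    have h2 := hd i hi
    have h3 := hd' i hi
    have h4 := dist_triangle (p i) (q i) (q'' i)
    rw [dist_comm (p i) (q i)] at h4
    linarith
  have he := kgeo_energy h hk hq'' hL'' p hp0 hpk hpd
  have hstep : ∀ i, i < k → dist (p i) (p (i + 1)) ^ 2 ≤ (L / k) ^ 2 / 2 + (L' / k) ^ 2 / 2 -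
      (dist (q i) (q' i) - dist (q (i + 1)) (q' (i + 1))) ^ 2 / 4 := by
    intro i hi
    have h1 := hq.step i hi
    have h2 := hq'.step i hi
    have := mid_mid h (x := q i) (x' := q' i) (y := q (i + 1)) (y' := q' (i + 1))
      (by linarith [hd i (by omega)]) (by linarith [hd (i + 1) (by omega)])
      (by linarith) (by linarith) (hp i (by omega)).1 (hp i (by omega)).2
      (hp (i + 1) (by omega)).1 (hp (i + 1) (by omega)).2
    rw [h1, h2] at this
    exact this
  have hsum := Finset.sum_le_sum (s := Finset.range k) fun i hi => hstep i (Finset.mem_range.1 hi)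
  simp only [Finset.sum_sub_distrib, Finset.sum_const, Finset.card_range, nsmul_eq_mul] at hsum
  have htel : ∑ i ∈ Finset.range k, (dist (q (i + 1)) (q' (i + 1)) - dist (q i) (q' i)) =
      dist (q k) (q' k) := by
    rw [Finset.sum_range_sub (fun i => dist (q i) (q' i)), ← h0, dist_self, sub_zero]
  have hcs := sq_sum_le_card_mul_sum_sq (s := Finset.range k)
    (f := fun i => dist (q (i + 1)) (q' (i + 1)) - dist (q i) (q' i))
  rw [htel, Finset.card_range] at hcs
  have hs2 : ∑ i ∈ Finset.range k, (dist (q i) (q' i) - dist (q (i + 1)) (q' (i + 1))) ^ 2 / 4 =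
      (∑ i ∈ Finset.range k, (dist (q (i + 1)) (q' (i + 1)) - dist (q i) (q' i)) ^ 2) / 4 := by
    rw [Finset.sum_div]
    exact Finset.sum_congr rfl fun i _ => by ring
  rw [hs2] at hsum
  have hmul := mul_le_mul_of_nonneg_left hsum hk'.le
  have e1 : (k : ℝ) * (k * ((L / k) ^ 2 / 2 + (L' / k) ^ 2 / 2) -
      (∑ i ∈ Finset.range k, (dist (q (i + 1)) (q' (i + 1)) - dist (q i) (q' i)) ^ 2) / 4) =
      L ^ 2 / 2 + L' ^ 2 / 2 - (k *
      ∑ i ∈ Finset.range k, (dist (q (i + 1)) (q' (i + 1)) - dist (q i) (q' i)) ^ 2) / 4 := by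
    field_simp
  rw [e1] at hmul
  linarith

end

end Pool.Agent.helper28.FJ3
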